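import Pool.Agent.helper97.BG.SigDefs

/-!
# FER: no rational curves
-/

namespace Pool.Agent.helper97.BG

open Polynomial Module

namespace FER

theorem const_of_isIntegral {k L : Type*} [Field k] [IsAlgClosed k] [Field L] [Algebra k L]
    {x : L} (hx : IsIntegral k x) : x ∈ (algebraMap k L).range := by
  have h1 : (minpoly k x).degree = 1 :=
    IsAlgClosed.degree_eq_one_of_irreducible k (minpoly.irreducible hx)
  exact minpoly.mem_range_of_degree_eq_one k x h1

theorem const_of_pow {k L : Type*} [Field k] [IsAlgClosed k] [Field L] [Algebra k L]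
    {x : L} {n : ℕ} (hn : 0 < n) (hx : x ^ n ∈ (algebraMap k L).range) :
    x ∈ (algebraMap k L).range := by
  obtain ⟨a, ha⟩ := hx
  apply const_of_isIntegral
  refine IsIntegral.of_pow hn ?_
  rw [← ha]
  exact isIntegral_algebraMap

theorem unit_const {k : Type*} [Field k] {a : k[X]} (ha : IsUnit a) :
    algebraMap k[X] (RatFunc k) a ∈ (algebraMap k (RatFunc k)).range := by
  obtain ⟨r, hr, rfl⟩ := Polynomial.isUnit_iff.1 ha
  exact ⟨r, by rw [RatFunc.algebraMap_eq_C, RatFunc.algebraMap_C]⟩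

end FER

theorem fermat_const {k : Type*} [Field k] [IsAlgClosed k] (h5 : (5 : k) ≠ 0) {x z : RatFunc k}
    (h : x ^ 5 + z ^ 5 = 1) : x ∈ (algebraMap k (RatFunc k)).range := by
  classical
  by_cases hx : x = 0
  · rw [hx]; exact zero_mem _
  by_cases hz : z = 0
  · apply FER.const_of_pow (n := 5) (by norm_num)
    rw [hz] at h
    rw [show x ^ 5 = 1 by simpa using h]
    exact one_mem _
  -- clear denominators
  obtain ⟨d, hd⟩ := IsLocalization.exist_integer_multiples_of_finset (nonZeroDivisors k[X])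
    ({x, z} : Finset (RatFunc k))
  have hd0 : (d : k[X]) ≠ 0 := nonZeroDivisors.coe_ne_zero d
  have hd0' : algebraMap k[X] (RatFunc k) (d : k[X]) ≠ 0 :=
    (map_ne_zero_iff _ (IsFractionRing.injective k[X] (RatFunc k))).2 hd0
  obtain ⟨a, ha⟩ := hd x (by simp)
  obtain ⟨b, hb⟩ := hd z (by simp)
  rw [Algebra.smul_def] at ha hb
  have inj := IsFractionRing.injective k[X] (RatFunc k)
  have heq : a ^ 5 + b ^ 5 = (d : k[X]) ^ 5 := by
    apply inj
    rw [map_add, map_pow, map_pow, map_pow, ha, hb, mul_pow, mul_pow, ← mul_add, h, mul_one]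
  have ha0 : a ≠ 0 := by
    rintro rfl
    rw [map_zero] at ha
    exact mul_ne_zero hd0' hx ha.symm
  have hb0 : b ≠ 0 := by
    rintro rfl
    rw [map_zero] at hb
    exact mul_ne_zero hd0' hz hb.symm
  obtain ⟨e, a', b', c', ⟨h1, h2, h3⟩, hu1, hu2, hu3⟩ :=
    fermatLastTheoremWith'_polynomial (k := k) (n := 5) (by norm_num) (by exact_mod_cast h5)
      a b d ha0 hb0 hd0 heq
  have he0 : e ≠ 0 := by
    rintro rfl
    exact hd0 (by rw [h3, mul_zero])
  have he0' : algebraMap k[X] (RatFunc k) e ≠ 0 :=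
    (map_ne_zero_iff _ inj).2 he0
  have hc0' : algebraMap k[X] (RatFunc k) c' ≠ 0 :=
    (map_ne_zero_iff _ inj).2 hu3.ne_zero
  have hxq : x = algebraMap k[X] (RatFunc k) a' / algebraMap k[X] (RatFunc k) c' := by
    rw [h3, h1, map_mul, map_mul] at ha
    rw [eq_div_iff hc0']
    apply mul_right_cancel₀ he0'
    rw [ha]
    ring
  obtain ⟨r, hr⟩ := FER.unit_const hu1
  obtain ⟨s, hs⟩ := FER.unit_const hu3
  refine ⟨r / s, ?_⟩
  rw [map_div₀, hr, hs, hxq]

theorem PD.const_of_hom {k K : Type*} [Field k] [Field K] [Algebra k K]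
    [IsAlgClosed k] (h5 : (5 : k) ≠ 0) (d : PD k K)
    (φ : d.O →ₐ[k] RatFunc k) (x : d.O) : φ x ∈ (algebraMap k (RatFunc k)).range := by
  classical
  have hVmem : ∀ i, d.V i ∈ d.O := fun i =>
    Algebra.subset_adjoin (Set.mem_insert_of_mem _ ⟨i, rfl⟩)
  have hymem : d.y ∈ d.O := Algebra.subset_adjoin (Set.mem_insert _ _)
  have hV : ∀ i, φ ⟨d.V i, hVmem i⟩ ∈ (algebraMap k (RatFunc k)).range := by
    intro i
    refine fermat_const h5 (z := φ ⟨d.V (i + 2), hVmem (i + 2)⟩ * φ ⟨d.V (i + 3), hVmem (i + 3)⟩) ?_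
    rw [← map_mul, ← map_pow, ← map_pow, ← map_add, ← map_one φ]
    congr 1
    apply Subtype.ext
    push_cast
    rw [mul_pow]
    exact d.rel i
  have hy : φ ⟨d.y, hymem⟩ ∈ (algebraMap k (RatFunc k)).range := by
    apply FER.const_of_pow (n := 5) (by norm_num)
    rw [← map_pow]
    have h1 : (⟨d.y, hymem⟩ : d.O) ^ 5 = ∑ i, algebraMap k d.O (d.c i) * ⟨d.V i, hVmem i⟩ ^ 5 := by
      apply Subtype.ext
      push_cast
      exact d.yrel
    rw [h1, map_sum]
    refine sum_mem fun i _ => ?_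
    rw [map_mul, map_pow, AlgHom.commutes]
    exact mul_mem ⟨_, rfl⟩ (pow_mem (hV i) 5)
  obtain ⟨x, hx⟩ := x
  -- the preimage of the constants is a subalgebra
  have key : d.O ≤ (Subalgebra.map d.O.val
      (Subalgebra.comap φ (⊥ : Subalgebra k (RatFunc k)))) := by
    conv_lhs => rw [PD.O]
    refine Algebra.adjoin_le ?_
    rintro z (rfl | ⟨i, rfl⟩)
    · refine ⟨⟨d.y, hymem⟩, ?_, rfl⟩
      exact Algebra.mem_bot.2 hy
    · refine ⟨⟨d.V i, hVmem i⟩, ?_, rfl⟩
      exact Algebra.mem_bot.2 (hV i)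
  obtain ⟨z, hz, hzx⟩ := key hx
  have : z = ⟨x, hx⟩ := Subtype.ext hzx
  rw [this] at hz
  exact Algebra.mem_bot.1 hz

end Pool.Agent.helper97.BG
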